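import Pool.Agent.Helper54.SP.StmtsP

/-! `SPR_d` project, module FANS: all fans and hull facets occur in the list. -/

set_option autoImplicit false

namespace Pool.Agent.Helper54.SP

theorem fans_apx_mem {N m i : ℕ} : i ∈ apx N m ↔ N ≤ i ∧ i < N + m := by
  unfold apx
  rw [List.mem_map]
  constructor
  · rintro ⟨j, hj, rfl⟩
    rw [List.mem_range] at hj
    omega
  · rintro ⟨h1, h2⟩
    exact ⟨i - N, List.mem_range.2 (by omega), by omega⟩

theorem fans_apx_nodup (N m : ℕ) : (apx N m).Nodup := by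
  unfold apx
  exact List.nodup_range.map (fun a b h => by simpa using h)

theorem fans_apx_length (N m : ℕ) : (apx N m).length = m := by
  unfold apx
  simp

theorem fans_aex_mem {N m c i : ℕ} (h : i ∈ aex N m c) : N ≤ i ∧ i < N + m := by
  unfold aex at h
  exact fans_apx_mem.1 (List.mem_of_mem_filter h)

theorem fans_aex_length {N m c : ℕ} (hc : c < m) : (aex N m c).length + 1 = m := by
  have h1 : aex N m c = (apx N m).erase (N + c) := by
    rw [(fans_apx_nodup N m).erase_eq_filter]
    unfold aex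
    apply List.filter_congr
    intro x _
    by_cases h : x = N + c <;> simp [h]
  have h2 : N + c ∈ apx N m := fans_apx_mem.2 ⟨by omega, by omega⟩
  rw [h1, List.length_erase_of_mem h2, fans_apx_length]
  omega

/-- the true gates are the first ones -/
theorem fans_cnt (Γ : List Gt) (nw : ℕ) (hW : WF Γ nw) (s : ℕ) (hs : s < Γ.length) :
    ((Γ.getD s (false, 0, 0, 0, 0, 0)).k = true → s < Γ.countP fun g => g.1) ∧
    ((Γ.getD s (false, 0, 0, 0, 0, 0)).k = false → (Γ.countP fun g => g.1) ≤ s) := by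
  constructor
  · intro h
    have h1 : (Γ.take (s + 1)).countP (fun g => g.1) = (Γ.take (s + 1)).length := by
      rw [List.countP_eq_length]
      intro g hg
      obtain ⟨i, hi, rfl⟩ := List.mem_iff_getElem.1 hg
      rw [List.length_take] at hi
      have hi' : i < s + 1 := lt_of_lt_of_le hi (min_le_left _ _)
      have h2 : (Γ.getD i (false, 0, 0, 0, 0, 0)).k = true := by
        rcases Nat.lt_succ_iff_lt_or_eq.1 hi' with h3 | h3
        · exact hW.sorted i s h3 hs h
        · rw [h3]; exact h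
      rw [List.getD_eq_getElem _ _ (by omega)] at h2
      rw [List.getElem_take]
      exact h2
    have h2 : (Γ.take (s + 1)).countP (fun g => g.1) ≤ Γ.countP (fun g => g.1) :=
      (List.take_sublist _ _).countP_le
    rw [h1, List.length_take, Nat.min_eq_left hs] at h2
    omega
  · intro h
    have h1 : (Γ.drop s).countP (fun g => g.1) = 0 := by
      rw [List.countP_eq_zero]
      intro g hg hk
      obtain ⟨i, hi, rfl⟩ := List.mem_iff_getElem.1 hg
      rw [List.length_drop] at hi
      rw [List.getElem_drop] at hk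
      have h3 : (Γ.getD (s + i) (false, 0, 0, 0, 0, 0)).k = true := by
        rw [List.getD_eq_getElem _ _ (by omega)]
        exact hk
      rcases Nat.eq_zero_or_pos i with h4 | h4
      · subst h4
        rw [Nat.add_zero, h] at h3
        exact absurd h3 (by simp)
      · have := hW.sorted s (s + i) (by omega) (by omega) h3
        rw [h] at this
        exact absurd this (by simp)
    have h2 : Γ.countP (fun g => g.1) =
        (Γ.take s).countP (fun g => g.1) + (Γ.drop s).countP (fun g => g.1) := by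
      rw [← List.countP_append, List.take_append_drop]
    have h3 : (Γ.take s).countP (fun g => g.1) ≤ (Γ.take s).length := List.countP_le_length
    rw [List.length_take] at h3
    have := min_le_left s Γ.length
    omega

theorem fans_sk (Γ : List Gt) (p : ℕ) :
    8 * (grp p - 1) ≤ sk Γ p ∧ sk Γ p ≤ 8 * (grp p - 1) + 7 := by
  unfold sk
  constructor <;> omega

theorem st_FANS (hMEMF : ST_MEMF) (hALTM : ST_ALTM) (hSALT : ST_SALT) (hKEY : ST_KEY)
    (hKINJ : ST_KINJ) (hFANF : ST_FANF) (hHULF : ST_HULF) (hFX : ST_FX) (hFY : ST_FY)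
    (hF4 : ST_F4) (hF3 : ST_F3) (hFH : ST_FH) : ST_FANS := by
  intro Γ nw m hW hm
  have hK := hKEY Γ nw m hW
  have hAlt : Alt (2 + m + 1) (NN Γ + m) (chF Γ nw m) := by
    have h := hALTM m (NN Γ) (sgm Γ) (rho Γ nw) (hSALT Γ) hK
    have h2 : 2 + m + 1 = 3 + m := by omega
    rw [h2]
    exact h
  have hN4 : 4 ≤ NN Γ := by unfold NN; omega
  obtain ⟨kx, ky, ks, kb, kg⟩ := hKINJ Γ nw hW
  -- from one-sidedness to membership
  have fin : ∀ g : List ℕ, g.length = 2 + m → g.Nodup → (∀ i ∈ g, i < NN Γ + m) →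
      (∀ x y, x < NN Γ + m → y < NN Γ + m → x ∉ g → y ∉ g →
        chi (sgm Γ) (rho Γ nw) m (g ++ [x]) = chi (sgm Γ) (rho Γ nw) m (g ++ [y])) →
      ∃ f ∈ fac Γ nw m, f.Perm g := by
    intro g h1 h2 h3 h4
    exact hMEMF (2 + m) (NN Γ + m) (chF Γ nw m) g hAlt h1 h2 h3 h4
  have fin3 : ∀ c o p q : ℕ, c < m → o < NN Γ → p < NN Γ → q < NN Γ → o ≠ p → o ≠ q → p ≠ q →
      rho Γ nw c o < rho Γ nw c p → rho Γ nw c p < rho Γ nw c q →
      (∀ x, x < NN Γ → x ≠ o → x ≠ p → x ≠ q → rho Γ nw c x < rho Γ nw c q →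
        sg3 Γ o p x = !sg3 Γ o p q) →
      ∃ f ∈ fac Γ nw m, f.Perm ([o, p, q] ++ aex (NN Γ) m c) := by
    intro c o p q hc ho hp hq hop hoq hpq h1 h2 h3
    apply fin
    · rw [List.length_append]
      have := fans_aex_length (N := NN Γ) hc
      simp only [List.length_cons, List.length_nil]
      omega
    · rw [List.nodup_append]
      refine ⟨?_, ?_, ?_⟩
      · simp [hop, hoq, hpq]
      · exact (fans_apx_nodup _ _).filter _
      · intro a ha b hb
        have h4 := fans_aex_mem hb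
        simp only [List.mem_cons, List.not_mem_nil, or_false] at ha
        rcases ha with rfl | rfl | rfl <;> omega
    · intro i hi
      rcases List.mem_append.1 hi with h | h
      · simp only [List.mem_cons, List.not_mem_nil, or_false] at h
        rcases h with rfl | rfl | rfl <;> omega
      · exact (fans_aex_mem h).2
    · exact hFANF m (NN Γ) (sgm Γ) (rho Γ nw) c o p q hK hc ho hp hq h1 h2 h3
  have fin2 : ∀ o o' : ℕ, o < NN Γ → o' < NN Γ → o ≠ o' →
      (∀ x y, x < NN Γ → y < NN Γ → x ≠ o → x ≠ o' → y ≠ o → y ≠ o' →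
        sg3 Γ o o' x = sg3 Γ o o' y) →
      ∃ f ∈ fac Γ nw m, f.Perm ([o, o'] ++ apx (NN Γ) m) := by
    intro o o' ho ho' hne h3
    apply fin
    · rw [List.length_append, fans_apx_length]
      simp only [List.length_cons, List.length_nil]
    · rw [List.nodup_append]
      refine ⟨?_, fans_apx_nodup _ _, ?_⟩
      · simp [hne]
      · intro a ha b hb
        have h4 := fans_apx_mem.1 hb
        simp only [List.mem_cons, List.not_mem_nil, or_false] at ha
        rcases ha with rfl | rfl <;> omega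
    · intro i hi
      rcases List.mem_append.1 hi with h | h
      · simp only [List.mem_cons, List.not_mem_nil, or_false] at h
        rcases h with rfl | rfl <;> omega
      · exact (fans_apx_mem.1 h).2
    · exact hHULF m (NN Γ) (sgm Γ) (rho Γ nw) o o' hK ho ho' hne h3
  -- the keys
  have r0 : ∀ x, x < NN Γ → 2 ≤ x → rho Γ nw 0 x = 1 + xk x := by
    intro x hx h2
    unfold rho rk
    rw [if_pos hx, if_neg (by omega), if_neg (by omega), if_neg (by omega), if_neg (by omega)]
    omega
  have r1 : ∀ x, x < NN Γ → 2 ≤ x → rho Γ nw 1 x = 2 + yk Γ x := by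
    intro x hx h2
    unfold rho rk
    rw [if_pos hx, if_pos rfl, if_neg (by omega), if_neg (by omega)]
    omega
  have r2t : ∀ x, x < NN Γ → 4 ≤ x → (gat Γ x).k = true → rho Γ nw 2 x = 3 + sk Γ x := by
    intro x hx h2 hk
    unfold rho rk
    rw [if_pos hx, if_neg (by omega), if_pos rfl, if_neg (by omega), if_neg (by omega),
      if_neg (by omega), if_neg (by omega), if_pos hk]
    omega
  have r2f : ∀ x, x < NN Γ → 4 ≤ x → (gat Γ x).k = false → rho Γ nw 2 x = 4 + sk Γ x := by
    intro x hx h2 hk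
    unfold rho rk
    rw [if_pos hx, if_neg (by omega), if_pos rfl, if_neg (by omega), if_neg (by omega),
      if_neg (by omega), if_neg (by omega), if_neg (by rw [hk]; simp)]
    omega
  have r20 : rho Γ nw 2 0 = 2 + BG Γ nw := by
    unfold rho rk
    rw [if_pos (by omega)]
    simp
  have r21 : rho Γ nw 2 1 = 2 + (BG Γ nw + 1) := by
    unfold rho rk
    rw [if_pos (by omega)]
    simp
  have r22 : rho Γ nw 2 2 = 2 + (1 + 8 * (Γ.countP fun g => g.1)) := by
    unfold rho rk
    rw [if_pos (by omega)]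
    simp
  have r23 : rho Γ nw 2 3 = 2 := by
    unfold rho rk
    rw [if_pos (by omega)]
    simp
  have r00 : rho Γ nw 0 0 = 0 := by
    unfold rho rk
    rw [if_pos (by omega)]
    simp
  have r01 : rho Γ nw 0 1 = BG Γ nw := by
    unfold rho rk
    rw [if_pos (by omega)]
    simp
  have r11 : rho Γ nw 1 1 = 1 := by
    unfold rho rk
    rw [if_pos (by omega)]
    simp
  have r10 : rho Γ nw 1 0 = 1 + BG Γ nw := by
    unfold rho rk
    rw [if_pos (by omega)]
    simp
  have ct : ∀ x, x < NN Γ → 4 ≤ x → (gat Γ x).k = true →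
      sk Γ x < 8 * (Γ.countP fun g => g.1) := by
    intro x hx h4 hk
    have h1 := (fans_cnt Γ nw hW (grp x - 1) (kg x h4 hx).2.2.2).1 hk
    have h2 := (fans_sk Γ x).2
    omega
  have cf : ∀ x, x < NN Γ → 4 ≤ x → (gat Γ x).k = false →
      8 * (Γ.countP fun g => g.1) ≤ sk Γ x := by
    intro x hx h4 hk
    have h1 := (fans_cnt Γ nw hW (grp x - 1) (kg x h4 hx).2.2.2).2 hk
    have h2 := (fans_sk Γ x).1
    omega
  refine ⟨?_, ?_, ?_, ?_, ?_, ?_, ?_⟩
  · rintro p q ⟨hp, hq, hp2, hq2, hlt, hnb⟩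
    have b1 := (kb q hq).1
    refine fin3 0 0 p q (by omega) (by omega) hp hq (by omega) (by omega)
      (by rintro rfl; exact lt_irrefl _ hlt) ?_ ?_ ?_
    · rw [r00, r0 p hp hp2]; omega
    · rw [r0 q hq hq2, r0 p hp hp2]; omega
    · intro x hx h0 hxp hxq hlt'
      rw [r0 q hq hq2] at hlt'
      by_cases hx1 : x = 1
      · exfalso
        rw [hx1, r01] at hlt'
        omega
      · have hx2 : 2 ≤ x := by omega
        rw [r0 x hx hx2] at hlt'
        have h1 : ¬ (xk p < xk x) := fun h => hnb x hx hx2 ⟨h, by omega⟩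
        have h2 : xk x ≠ xk p := fun h => hxp (kx x p hx2 hp2 hx hp h)
        rw [(hFX Γ nw hW p q hp2 hq2 hp hq hlt).1,
          (hFX Γ nw hW x p hx2 hp2 hx hp (by omega)).2]
        rfl
  · rintro p q ⟨hp, hq, hp2, hq2, hlt, hnb⟩
    have b1 := (kb q hq).2.1
    refine fin3 1 1 p q (by omega) (by omega) hp hq (by omega) (by omega)
      (by rintro rfl; exact lt_irrefl _ hlt) ?_ ?_ ?_
    · rw [r11, r1 p hp hp2]; omega
    · rw [r1 q hq hq2, r1 p hp hp2]; omega
    · intro x hx h0 hxp hxq hlt'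
      rw [r1 q hq hq2] at hlt'
      by_cases hx1 : x = 0
      · exfalso
        rw [hx1, r10] at hlt'
        omega
      · have hx2 : 2 ≤ x := by omega
        rw [r1 x hx hx2] at hlt'
        have h1 : ¬ (yk Γ p < yk Γ x) := fun h => hnb x hx hx2 ⟨h, by omega⟩
        have h2 : yk Γ x ≠ yk Γ p := fun h => hxp (ky x p hx2 hp2 hx hp h)
        rw [(hFY Γ nw hW p q hp2 hq2 hp hq hlt).1,
          (hFY Γ nw hW x p hx2 hp2 hx hp (by omega)).2]
        rfl
  · rintro p q ⟨hp, hq, ⟨hp4, hpk⟩, ⟨hq4, hqk⟩, hlt, hnb⟩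
    have b1 := (kb q hq).2.2
    refine fin3 2 3 p q (by omega) (by omega) hp hq (by omega) (by omega)
      (by rintro rfl; exact lt_irrefl _ hlt) ?_ ?_ ?_
    · rw [r23, r2t p hp hp4 hpk]; omega
    · rw [r2t q hq hq4 hqk, r2t p hp hp4 hpk]; omega
    · intro x hx h0 hxp hxq hlt'
      rw [r2t q hq hq4 hqk] at hlt'
      have hcq := ct q hq hq4 hqk
      by_cases hx0 : x = 0
      · exfalso
        rw [hx0, r20] at hlt'
        omega
      by_cases hx1 : x = 1
      · exfalso
        rw [hx1, r21] at hlt'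
        omega
      by_cases hx2 : x = 2
      · exfalso
        rw [hx2, r22] at hlt'
        omega
      have hx4 : 4 ≤ x := by omega
      rcases hk : (gat Γ x).k with _ | _
      · exfalso
        rw [r2f x hx hx4 hk] at hlt'
        have := cf x hx hx4 hk
        omega
      · rw [r2t x hx hx4 hk] at hlt'
        have h1 : ¬ (sk Γ p < sk Γ x) := fun h => hnb x hx ⟨hx4, hk⟩ ⟨h, by omega⟩
        have h2 : sk Γ x ≠ sk Γ p := fun h => hxp (ks x p hx4 hp4 hx hp h)
        rw [(hF4 Γ nw hW p q hp4 hq4 hp hq hpk hqk hlt).1,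
          (hF4 Γ nw hW x p hx4 hp4 hx hp hk hpk (by omega)).2]
        rfl
  · rintro p q ⟨hp, hq, ⟨hp4, hpk⟩, ⟨hq4, hqk⟩, hlt, hnb⟩
    have b1 := (kb q hq).2.2
    have hcp := cf p hp hp4 hpk
    refine fin3 2 2 p q (by omega) (by omega) hp hq (by omega) (by omega)
      (by rintro rfl; exact lt_irrefl _ hlt) ?_ ?_ ?_
    · rw [r22, r2f p hp hp4 hpk]; omega
    · rw [r2f q hq hq4 hqk, r2f p hp hp4 hpk]; omega
    · intro x hx h0 hxp hxq hlt'
      rw [r2f q hq hq4 hqk] at hlt'
      have hpq := ((hF3 Γ nw hW q hq4 hq hqk).1 p hp4 hp hpk hlt).1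
      rw [hpq]
      by_cases hx0 : x = 0
      · exfalso
        rw [hx0, r20] at hlt'
        omega
      by_cases hx1 : x = 1
      · exfalso
        rw [hx1, r21] at hlt'
        omega
      by_cases hx3 : x = 3
      · rw [(hF3 Γ nw hW p hp4 hp hpk).2 x (Or.inl hx3)]
        rfl
      have hx4 : 4 ≤ x := by omega
      rcases hk : (gat Γ x).k with _ | _
      · rw [r2f x hx hx4 hk] at hlt'
        have h1 : ¬ (sk Γ p < sk Γ x) := fun h => hnb x hx ⟨hx4, hk⟩ ⟨h, by omega⟩
        have h2 : sk Γ x ≠ sk Γ p := fun h => hxp (ks x p hx4 hp4 hx hp h)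
        rw [((hF3 Γ nw hW p hp4 hp hpk).1 x hx4 hx hk (by omega)).2]
        rfl
      · rw [(hF3 Γ nw hW p hp4 hp hpk).2 x (Or.inr ⟨hx4, hx, hk⟩)]
        rfl
  · obtain ⟨h1, h2, h3⟩ := hFH Γ nw hW
    refine fin2 0 1 (by omega) (by omega) (by omega) ?_
    intro x y hx hy a1 a2 a3 a4
    rw [h1 x (by omega) hx, h1 y (by omega) hy]
  · obtain ⟨h1, h2, h3⟩ := hFH Γ nw hW
    refine fin2 0 2 (by omega) (by omega) (by omega) ?_
    intro x y hx hy a1 a2 a3 a4
    rw [h2 x a1 a2 hx, h2 y a3 a4 hy]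
  · obtain ⟨h1, h2, h3⟩ := hFH Γ nw hW
    refine fin2 1 2 (by omega) (by omega) (by omega) ?_
    intro x y hx hy a1 a2 a3 a4
    rw [h3 x a1 a2 hx, h3 y a3 a4 hy]

end Pool.Agent.Helper54.SP
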