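import Pool.Agent.Helper54.SP.StmtsP

/-! `SPR_d` project, module POLY: a uniform configuration in a half space is a simplicial polytope
whose facets are the one-sided sets. -/

set_option autoImplicit false

namespace Pool.Agent.Helper54.SP

open Finset

theorem st_POLY (hPH : ST_PH) (hPA : ST_PA) (hP1 : ST_P1) (hP2 : ST_P2) (hP3 : ST_P3)
    (hMR : ST_MEMR) : ST_POLY := by
  intro d n X χ hd hdn hA hs hcov
  set p : ℕ → Fin d → ℝ := fun i j => X i j / ∑ j ∈ range (d + 1), X i j with hp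
  have hA' : Agree (d + 1) (hom d p) n χ := by
    intro l hl hnd hln
    obtain ⟨c, hc, h⟩ := hPH d X l hl (fun i hi => hs i (hln i hi))
    have h1 := hA l hl hnd hln
    rw [h] at h1
    have h2 : sb (χ l) * (c * dt (d + 1) (hom d p) l) = c * (sb (χ l) * dt (d + 1) (hom d p) l) := by
      ring
    rw [h2] at h1
    exact (mul_pos_iff_of_pos_left hc).1 h1
  have hU : Unif d n p := by
    intro l hl hnd hln h0
    have h1 := hA' l hl hnd hln
    rw [h0, mul_zero] at h1
    exact lt_irrefl _ h1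
  have hM := hMR d n χ (hom d p) hA'
  obtain ⟨hinj, hspan⟩ := hPA d n p hd hdn hU
  have hrange : Set.range (fun i : Fin n => p i) = p '' {i | i < n} := by
    ext x
    constructor
    · rintro ⟨i, rfl⟩
      exact ⟨i, i.2, rfl⟩
    · rintro ⟨i, hi, rfl⟩
      exact ⟨⟨i, hi⟩, rfl⟩
  have himg : ∀ f : List ℕ, (∀ i ∈ f, i < n) →
      (fun i : Fin n => p i) '' {i | (i : ℕ) ∈ f} = p '' {i | i ∈ f} := by
    intro f hf
    ext x
    constructor
    · rintro ⟨i, hi, rfl⟩
      exact ⟨i, hi, rfl⟩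
    · rintro ⟨i, hi, rfl⟩
      exact ⟨⟨i, hf i hi⟩, hi, rfl⟩
  have hnd : ∀ f : List ℕ, f.Pairwise (· < ·) → f.Nodup := fun f hf => hf.imp (fun h => h.ne)
  refine ⟨fun i => p i, ?_, ?_, ?_, ?_⟩
  · intro i j hij
    exact Fin.ext (hinj i j i.2 j.2 hij)
  · rw [hrange]
    exact hspan
  · rw [hrange]
    apply subset_antisymm
    · exact extremePoints_convexHull_subset
    · rintro x ⟨i, hi, rfl⟩
      obtain ⟨f, hf, hif⟩ := hcov i hi
      obtain ⟨h1, h2, h3, h4⟩ := (hM f).1 hf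
      exact hP3 d n p f i hd hdn hU (hnd f h1) h2 h3 h4 hif
  · intro Q
    rw [hrange]
    constructor
    · intro hQ
      obtain ⟨f, h1, h2, h3, h4, h5⟩ := hP2 d n p Q hd hdn hU hQ
      refine ⟨f, (hM f).2 ⟨h1, h2, h3, h4⟩, ?_⟩
      rw [himg f h3]
      exact h5
    · rintro ⟨f, hf, rfl⟩
      obtain ⟨h1, h2, h3, h4⟩ := (hM f).1 hf
      rw [himg f h3]
      exact hP1 d n p f hd hdn hU (hnd f h1) h2 h3 h4

end Pool.Agent.Helper54.SP
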