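import Pool.Agent.Helper54.SP.Stmts

/-! `SPR_d` project, module YO: choice of the slacks. -/

set_option autoImplicit false

namespace Pool.Agent.Helper54.SP

theorem yo_min (L : List ℝ) (h : ∀ x ∈ L, 0 < x) : ∃ δ : ℝ, 0 < δ ∧ ∀ x ∈ L, δ ≤ x := by
  induction L with
  | nil => exact ⟨1, one_pos, by simp⟩
  | cons a L ih =>
    obtain ⟨δ, h1, h2⟩ := ih (fun x hx => h x (List.mem_cons_of_mem _ hx))
    refine ⟨min a δ, lt_min (h a List.mem_cons_self) h1, ?_⟩
    intro x hx
    rcases List.mem_cons.1 hx with rfl | hx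
    · exact min_le_left _ _
    · exact (min_le_right _ _).trans (h2 x hx)

theorem yo_gat (Γ : List Gt) (p : ℕ) (h4 : 4 ≤ p) (hN : p < NN Γ) : gat Γ p ∈ Γ := by
  unfold gat
  have h : grp p - 1 < Γ.length := by
    unfold grp NN at *
    omega
  rw [List.getD_eq_getElem _ _ h]
  exact List.getElem_mem _

/-- bounds for the multiples of the slack, even corners -/
theorem yo_even (k : Bool) (t : ℕ) (h8 : t < 8) (h : t % 2 = 0) :
    10 ≤ mul8 k t ∧ mul8 k t ≤ 124 := by
  unfold mul8
  interval_cases t <;> simp at h ⊢ <;> cases k <;> norm_num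

theorem yo_odd (k : Bool) (t : ℕ) (h8 : t < 8) (h : t % 2 = 1) :
    -124 ≤ mul8 k t ∧ mul8 k t ≤ -10 := by
  unfold mul8
  interval_cases t <;> simp at h ⊢ <;> cases k <;> norm_num

theorem yo_abs (k : Bool) (t : ℕ) (h8 : t < 8) : -124 ≤ mul8 k t ∧ mul8 k t ≤ 124 := by
  rcases Nat.mod_two_eq_zero_or_one t with h | h
  · have := yo_even k t h8 h
    constructor <;> linarith [this.1, this.2]
  · have := yo_odd k t h8 h
    constructor <;> linarith [this.1, this.2]

theorem st_YO : ST_YO := by
  intro Γ nw v hW hN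
  obtain ⟨hE, hb, hm, hg⟩ := hN
  -- the finite minimum
  obtain ⟨δ, hδ, hmin⟩ := yo_min
    (1 :: (Γ.map (fun g => (v g.u' - v g.u) * |v g.a - v g.u|) ++
      (List.range nw).flatMap fun z => (List.range nw).map fun z' =>
        if z < z' then v z' - v z else 1)) (by
    intro x hx
    rcases List.mem_cons.1 hx with rfl | hx
    · exact one_pos
    rcases List.mem_append.1 hx with hx | hx
    · obtain ⟨g, hgm, rfl⟩ := List.mem_map.1 hx
      obtain ⟨w1, w2, w3, w4, w5, w6, w7, w8⟩ := hW.wires g hgm
      have h1 := hm g.u g.u' w1 w3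
      have h2 := hg g hgm
      have h3 : 0 < |v g.a - v g.u| := by linarith
      exact mul_pos (by linarith) h3
    · obtain ⟨z, hz, hx⟩ := List.mem_flatMap.1 hx
      obtain ⟨z', hz', rfl⟩ := List.mem_map.1 hx
      rw [List.mem_range] at hz hz'
      split_ifs with h1
      · have := hm z z' h1 hz'
        linarith
      · exact one_pos)
  have hδ1 : δ ≤ 1 := hmin 1 List.mem_cons_self
  have hδg : ∀ g ∈ Γ, δ ≤ (v g.u' - v g.u) * |v g.a - v g.u| := by
    intro g hgm
    apply hmin
    exact List.mem_cons_of_mem _ (List.mem_append_left _ (List.mem_map_of_mem hgm))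
  have hδz : ∀ z z', z < z' → z' < nw → δ ≤ v z' - v z := by
    intro z z' h1 h2
    apply hmin
    refine List.mem_cons_of_mem _ (List.mem_append_right _ ?_)
    rw [List.mem_flatMap]
    refine ⟨z, List.mem_range.2 (by omega), ?_⟩
    rw [List.mem_map]
    exact ⟨z', List.mem_range.2 h2, by rw [if_pos h1]⟩
  set K := Γ.length with hK
  have hKp : (0 : ℝ) < 100 ^ K := by positivity
  have he0 : 0 < δ / (1000000 * 100 ^ K) := by positivity
  -- bounds for the slack of a gate
  have hEb : ∀ c, c < K → 1000000 * (δ / (1000000 * 100 ^ K) * 100 ^ c) ≤ δ := by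
    intro c hc
    have h1 : (100 : ℝ) ^ c ≤ 100 ^ K := pow_le_pow_right₀ (by norm_num) hc.le
    have h2 : 1000000 * (δ / (1000000 * 100 ^ K) * 100 ^ c) = δ * (100 ^ c / 100 ^ K) := by
      field_simp
    rw [h2]
    have h3 : (100 : ℝ) ^ c / 100 ^ K ≤ 1 := (div_le_one hKp).2 h1
    nlinarith
  have hEp : ∀ c : ℕ, 0 < δ / (1000000 * 100 ^ K) * 100 ^ c := fun c => by positivity
  have hwir : ∀ p, 4 ≤ p → p < NN Γ → wir Γ p < nw := by
    intro p h4 hp
    obtain ⟨w1, w2, w3, w4, w5, w6, w7, w8⟩ := hW.wires _ (yo_gat Γ p h4 hp)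
    unfold wir
    split_ifs <;> omega
  have hcrn : ∀ p, crn p < 8 := fun p => Nat.mod_lt _ (by norm_num)
  generalize hee : δ / (1000000 * 100 ^ K) = e at *
  have hy4 : ∀ p, 4 ≤ p → yv Γ v e p =
      v (wir Γ p) + mul8 (gat Γ p).k (crn p) * (e * 100 ^ (gat Γ p).c) := by
    intro p hp
    unfold yv
    rw [if_neg (by omega)]
  have hrange : ∀ p, 4 ≤ p → p < NN Γ → 2 - 1 / 100 < yv Γ v e p ∧ yv Γ v e p < 2 + 2 / 100 := by
    intro p h4 hp
    rw [hy4 p h4]
    have h1 := hb _ (hwir p h4 hp)
    have h2 := yo_abs (gat Γ p).k (crn p) (hcrn p)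
    have h3 := hEb _ (hW.clt _ (yo_gat Γ p h4 hp))
    have h4' := hEp (gat Γ p).c
    constructor <;> nlinarith [h1.1, h1.2, h2.1, h2.2]
  refine ⟨e, he0, ?_, hrange, ?_⟩
  · intro g hgm
    obtain ⟨w1, w2, w3, w4, w5, w6, w7, w8⟩ := hW.wires g hgm
    have bu := hb g.u (by omega)
    have bu' := hb g.u' w3
    have ba := hb g.a (by omega)
    have ba' := hb g.a' w4
    have hsub : v g.a - cen g.k - (v g.u - cen g.k) = v g.a - v g.u := by ring
    refine ⟨by linarith, by linarith [hm g.u g.u' w1 w3], by linarith, by linarith,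
      by linarith [hm g.a g.a' w2 w4], by linarith, hE g hgm, ?_, hEp _, ?_⟩
    · rw [hsub]
      have := hg g hgm
      linarith
    · rw [hsub]
      have h1 := hδg g hgm
      have h2 := hEb _ (hW.clt g hgm)
      have h3 : v g.u' - cen g.k - (v g.u - cen g.k) = v g.u' - v g.u := by ring
      rw [h3]
      linarith
  · intro p q hp2 hq2 hpN hqN hlt
    by_cases hq4 : q < 4
    · have hyq : yk Γ q = q - 2 := by unfold yk; rw [if_pos hq4]
      rw [hyq] at hlt
      have hq3 : q = 3 := by omega
      by_cases hp4 : p < 4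
      · have hyp : yk Γ p = p - 2 := by unfold yk; rw [if_pos hp4]
        rw [hyp] at hlt
        have hp3 : p = 2 := by omega
        subst hp3 hq3
        unfold yv
        norm_num
      · unfold yk at hlt
        rw [if_neg hp4] at hlt
        omega
    · push Not at hq4
      by_cases hp4 : p < 4
      · have h1 := (hrange q hq4 hqN).1
        have h2 : yv Γ v e p ≤ 1 := by
          unfold yv
          rw [if_pos hp4]
          split_ifs <;> norm_num
        linarith
      · push Not at hp4
        rw [hy4 p hp4, hy4 q hq4]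
        have hcp := hW.clt _ (yo_gat Γ p hp4 hpN)
        have hcq := hW.clt _ (yo_gat Γ q hq4 hqN)
        have hep := hEp (gat Γ p).c
        have heq := hEp (gat Γ q).c
        have hep' := hEb _ hcp
        have heq' := hEb _ hcq
        have hwp := hwir p hp4 hpN
        have hwq := hwir q hq4 hqN
        unfold yk at hlt
        rw [if_neg (show ¬ p < 4 by omega), if_neg (show ¬ q < 4 by omega), ← hK] at hlt
        set rp := (if crn p % 2 = 0 then K + (gat Γ p).c else K - 1 - (gat Γ p).c) with hrp
        set rq := (if crn q % 2 = 0 then K + (gat Γ q).c else K - 1 - (gat Γ q).c) with hrq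
        have hrp1 : rp < 2 * K := by rw [hrp]; split_ifs <;> omega
        have hrq1 : rq < 2 * K := by rw [hrq]; split_ifs <;> omega
        rcases lt_trichotomy (wir Γ p) (wir Γ q) with hw | hw | hw
        · have h1 := hδz _ _ hw hwq
          have h2 := yo_abs (gat Γ p).k (crn p) (hcrn p)
          have h3 := yo_abs (gat Γ q).k (crn q) (hcrn q)
          have h4 : mul8 (gat Γ p).k (crn p) * (e * 100 ^ (gat Γ p).c) ≤
              124 * (e * 100 ^ (gat Γ p).c) := mul_le_mul_of_nonneg_right h2.2 hep.le
          have h5 : -124 * (e * 100 ^ (gat Γ q).c) ≤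
              mul8 (gat Γ q).k (crn q) * (e * 100 ^ (gat Γ q).c) :=
            mul_le_mul_of_nonneg_right h3.1 heq.le
          linarith
        · rw [hw] at hlt ⊢
          have hlt' : rp < rq := by omega
          rcases Nat.mod_two_eq_zero_or_one (crn p) with e1 | e1 <;>
            rcases Nat.mod_two_eq_zero_or_one (crn q) with e2 | e2
          · rw [hrp, hrq, if_pos e1, if_pos e2] at hlt'
            have hc : (gat Γ p).c + 1 ≤ (gat Γ q).c := by omega
            have h1 : e * 100 ^ (gat Γ p).c * 100 ≤ e * 100 ^ (gat Γ q).c := by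
              have : (100 : ℝ) ^ ((gat Γ p).c + 1) ≤ 100 ^ (gat Γ q).c :=
                pow_le_pow_right₀ (by norm_num) hc
              rw [pow_succ] at this
              nlinarith
            have h2 := yo_even (gat Γ p).k (crn p) (hcrn p) e1
            have h3 := yo_even (gat Γ q).k (crn q) (hcrn q) e2
            have h4 : mul8 (gat Γ p).k (crn p) * (e * 100 ^ (gat Γ p).c) ≤
              124 * (e * 100 ^ (gat Γ p).c) := mul_le_mul_of_nonneg_right h2.2 hep.le
            have h5 : 10 * (e * 100 ^ (gat Γ q).c) ≤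
              mul8 (gat Γ q).k (crn q) * (e * 100 ^ (gat Γ q).c) :=
              mul_le_mul_of_nonneg_right h3.1 heq.le
            linarith
          · rw [hrp, hrq, if_pos e1, if_neg (by omega)] at hlt'
            omega
          · have h2 := yo_odd (gat Γ p).k (crn p) (hcrn p) e1
            have h3 := yo_even (gat Γ q).k (crn q) (hcrn q) e2
            have h4 : mul8 (gat Γ p).k (crn p) * (e * 100 ^ (gat Γ p).c) ≤
              -10 * (e * 100 ^ (gat Γ p).c) := mul_le_mul_of_nonneg_right h2.2 hep.le
            have h5 : 10 * (e * 100 ^ (gat Γ q).c) ≤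
              mul8 (gat Γ q).k (crn q) * (e * 100 ^ (gat Γ q).c) :=
              mul_le_mul_of_nonneg_right h3.1 heq.le
            linarith
          · rw [hrp, hrq, if_neg (by omega), if_neg (by omega)] at hlt'
            have hc : (gat Γ q).c + 1 ≤ (gat Γ p).c := by omega
            have h1 : e * 100 ^ (gat Γ q).c * 100 ≤ e * 100 ^ (gat Γ p).c := by
              have : (100 : ℝ) ^ ((gat Γ q).c + 1) ≤ 100 ^ (gat Γ p).c :=
                pow_le_pow_right₀ (by norm_num) hc
              rw [pow_succ] at this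
              nlinarith
            have h2 := yo_odd (gat Γ p).k (crn p) (hcrn p) e1
            have h3 := yo_odd (gat Γ q).k (crn q) (hcrn q) e2
            have h4 : mul8 (gat Γ p).k (crn p) * (e * 100 ^ (gat Γ p).c) ≤
              -10 * (e * 100 ^ (gat Γ p).c) := mul_le_mul_of_nonneg_right h2.2 hep.le
            have h5 : -124 * (e * 100 ^ (gat Γ q).c) ≤
              mul8 (gat Γ q).k (crn q) * (e * 100 ^ (gat Γ q).c) :=
              mul_le_mul_of_nonneg_right h3.1 heq.le
            linarith
        · exfalso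
          have h1 : (wir Γ q + 1) * (2 * K) ≤ wir Γ p * (2 * K) := Nat.mul_le_mul_right _ hw
          rw [Nat.add_mul, one_mul] at h1
          omega

end Pool.Agent.Helper54.SP
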